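import Pool.Agent.Helper96.GU.StF

/-!
Module GNH of project GF: the elements of `H` are closed paths on the base cell.
-/

set_option autoImplicit false

namespace Pool.Agent.Helper71.GF

open Pool.Agent.Helper96.UT hiding StTOP TopV TopE tht Bd VC EC
open Pool.Agent.Helper96.GU

theorem tGNH : StGNH := by
  intro α r Z Θ _ o ho
  have hact : ∀ g ∈ Hp r Z, act o g = o := fun g hg => (ho g).2 hg
  intro h hh
  have hh' := hh
  unfold Hp at hh'
  induction hh' using Subgroup.closure_induction with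
  | mem x hx =>
    obtain ⟨j, k, u, hu, hs, rfl⟩ := hx
    obtain ⟨P1, h1, h2⟩ := cell_path Z o 0 j
    obtain ⟨P2, h3, h4⟩ := cell_path Z o k 0
    rw [pre_zero] at h1 h2 h4
    rw [act_one] at h1
    rw [inv_one, one_mul] at h2
    rw [mul_one] at h4
    refine ⟨P1 ++ P2, ?_, ?_⟩
    · rw [InE_append]
      refine ⟨h1, ?_⟩
      have e : act o (pre Z.c j) = act o (pre Z.c k) := by
        have e1 : pre Z.c j = pre Z.c j * (pre Z.c k)⁻¹ * pre Z.c k := by group
        rw [e1, act_mul, hact _ hh]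
      rw [h2, e]
      exact h3
    · rw [mk_append, h2, h4]
  | one => exact ⟨[], trivial, rfl⟩
  | mul x y hx hy ihx ihy =>
    obtain ⟨q1, h1, h2⟩ := ihx hx
    obtain ⟨q2, h3, h4⟩ := ihy hy
    refine ⟨q1 ++ q2, ?_, ?_⟩
    · rw [InE_append, h2, hact x hx]
      exact ⟨h1, h3⟩
    · rw [mk_append, h2, h4]
  | inv x hx ihx =>
    obtain ⟨q1, h1, h2⟩ := ihx hx
    refine ⟨FreeGroup.invRev q1, ?_, ?_⟩
    · have h3 := InE_invRev h1
      rw [h2, hact x hx] at h3
      exact h3
    · rw [mk_invRev, h2]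

end Pool.Agent.Helper71.GF
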